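import Pool.Agent.H926Z.W2.Main

/-!
# The exponent of the Hessian measure estimate is at most `C_n (Λ/λ)^{1-n}` for `n ≥ 3`

The examples are finite laminates: the diagonal second derivatives `u_jj` perform a coordinatewise
martingale inside the cone `1/K ≤ (∑ u_jj⁺)/(∑ u_jj⁻) ≤ K`, which is stopped only after `n - 1`
coordinates have made a jump of relative size `K`.
-/

namespace Pool.Agent.Results.MP_02db74_an.ASharpOrder

open Pool.Agent.H926Z.W2

theorem result : ∀ n : ℕ, 3 ≤ n → ∃ C K₀ : ℝ, ∀ lam Lam : ℝ, 0 < lam → lam ≤ Lam →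
    K₀ ≤ Lam / lam → epsStar n lam Lam ≤ ENNReal.ofReal (C * (Lam / lam) ^ (1 - (n : ℝ))) :=
  main

end Pool.Agent.Results.MP_02db74_an.ASharpOrder
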